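import Pool.Agent.W580.SH.StmA

set_option autoImplicit false

namespace Pool.Agent.W959.SH

open Finset Pool.Agent.W580.SH

def sg (b : Bool) : ℤ := if b then 1 else -1

abbrev Ty := Fin 2 × Bool × Bool

def ng (T : Ty) : Ty := (T.1, !T.2.1, !T.2.2)

def cs (T T' : Ty) : ℤ × ℤ × ℤ :=
  ((if T.1 = 0 then sg T.2.1 else 0) + (if T'.1 = 0 then sg T'.2.1 else 0),
   (if T.1 = 0 then 0 else sg T.2.1) + (if T'.1 = 0 then 0 else sg T'.2.1),
   sg T.2.2 + sg T'.2.2)

def oth (T T' : Ty) : Ty × Ty :=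
  if T.1 = T'.1 then ((1 - T.1, true, T.2.2), (1 - T.1, false, T.2.2))
  else ((T.1, T.2.1, T'.2.2), (T'.1, T'.2.1, T.2.2))

lemma comb : ∀ T1 T1' T2 T2' : Ty, cs T1 T1' = cs T2 T2' → T1' ≠ ng T1 →
    ((T2 = T1 ∧ T2' = T1') ∨ (T2 = T1' ∧ T2' = T1)) ∨
      ((T2, T2') = oth T1 T1' ∨ (T2', T2) = oth T1 T1') := by decide +kernel

lemma comb0 : ∀ T1 T1' T2 T2' : Ty, cs T1 T1' = cs T2 T2' → T1' = ng T1 → T2' = ng T2 := by
  decide +kernel

lemma sg_not (b : Bool) : sg (!b) = - sg b := by cases b <;> rfl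

lemma sg_inj {b b' : Bool} (h : sg b = sg b') : b = b' := by
  cases b <;> cases b' <;> simp [sg] at h ⊢

lemma sg_inj' {b b' : Bool} (h : sg b = - sg b') : b = !b' := by
  cases b <;> cases b' <;> simp [sg] at h ⊢

def TY {R : Type} (f : Fin 2 → (R → ℝ)) (v : Fin 3 → (R → ℝ)) (κ : Fin 5 → R)
    (z : R → ℝ) (T : Ty) : Prop := PT f v κ z T.1 (sg T.2.1) (sg T.2.2)

variable {R : Type} {f : Fin 2 → (R → ℝ)} {v : Fin 3 → (R → ℝ)} {κ : Fin 5 → R}

lemma sg_cases (b : Bool) : sg b = 1 ∨ sg b = -1 := by cases b <;> simp [sg]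

lemma TY_of {z : R → ℝ} {a : Fin 2} {σ τ : ℤ} (h : PT f v κ z a σ τ) : ∃ T, TY f v κ z T := by
  obtain ⟨h1, h2, h3⟩ := h
  have key : ∀ σ : ℤ, σ = 1 ∨ σ = -1 → ∃ b, sg b = σ := by
    rintro σ (rfl | rfl)
    · exact ⟨true, rfl⟩
    · exact ⟨false, rfl⟩
  obtain ⟨b, hb⟩ := key σ h1
  obtain ⟨b', hb'⟩ := key τ h2
  refine ⟨(a, b, b'), sg_cases _, sg_cases _, ?_⟩
  simp only [hb, hb']
  exact h3

lemma TY_neg {z : R → ℝ} {T : Ty} (h : TY f v κ z T) : TY f v κ (-z) (ng T) := by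
  refine ⟨sg_cases _, sg_cases _, fun b => ?_⟩
  have h3 := h.2.2 b
  simp only [ng, sg_not, Pi.neg_apply, h3]
  push_cast
  ring

lemma crd_add {A B : R → ℝ} {T T' : Ty} (h : TY f v κ A T) (h' : TY f v κ B T') :
    Crd f v κ (A + B) ![((cs T T').1 : ℝ), ((cs T T').2.1 : ℝ)]
      ![((cs T T').2.2 : ℝ) / 2, ((cs T T').2.2 : ℝ) / 2, 0] := by
  intro b
  have h1 := h.2.2 b
  have h2 := h'.2.2 b
  obtain ⟨a, σ, τ⟩ := T
  obtain ⟨a', σ', τ'⟩ := T'
  simp only [Pi.add_apply, h1, h2, Fin.sum_univ_two, Fin.sum_univ_three, cs]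
  fin_cases a <;> fin_cases a' <;> simp <;> ring

lemma cs_eq (hC : S_CRD) (hd : mn κ (fv f v) ≠ 0) {A B A' B' : R → ℝ} {T T' U U' : Ty}
    (h1 : TY f v κ A T) (h2 : TY f v κ B T') (h3 : TY f v κ A' U) (h4 : TY f v κ B' U')
    (hs : A + B = A' + B') : cs T T' = cs U U' := by
  obtain ⟨ξ, η, -, hu⟩ := hC R f v κ hd (A + B)
  have e1 := hu _ _ (crd_add h1 h2)
  have e2 := hu _ _ (hs ▸ crd_add h3 h4 : Crd f v κ (A + B) _ _)
  have a1 := congrFun (e1.1.trans e2.1.symm) 0
  have a2 := congrFun (e1.1.trans e2.1.symm) 1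
  have a3 := congrFun (e1.2.trans e2.2.symm) 0
  simp at a1 a2 a3
  exact Prod.ext a1 (Prod.ext a2 a3)

lemma dneg [DecidableEq R] {S : Set (R → ℝ)} (hS : ∀ x ∈ S, -x ∈ S) {i : R} {z : R → ℝ}
    (h : z ∈ DSet S i (1 / 2)) : -z ∈ DSet S i (1 / 2) := by
  obtain ⟨h1, h2, h3⟩ := h
  refine ⟨by simp [h1], ?_, ?_⟩
  · have := hS _ h3
    convert this using 1
    funext r
    by_cases hr : r = i
    · subst hr; simp; norm_num
    · simp [Function.update_of_ne hr]
  · have := hS _ h2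
    convert this using 1
    funext r
    by_cases hr : r = i
    · subst hr; simp; norm_num
    · simp [Function.update_of_ne hr]

lemma ty_of_ab8 {T T' : Ty} (h1 : T.1 = T'.1) (h : (sg T'.2.1 = sg T.2.1 ∧ sg T'.2.2 = sg T.2.2) ∨
    (sg T'.2.1 = -sg T.2.1 ∧ sg T'.2.2 = -sg T.2.2)) : T' = T ∨ T' = ng T := by
  rcases h with ⟨h2, h3⟩ | ⟨h2, h3⟩
  · exact Or.inl (Prod.ext h1.symm (Prod.ext (sg_inj h2) (sg_inj h3)))
  · exact Or.inr (Prod.ext h1.symm (Prod.ext (sg_inj' h2) (sg_inj' h3)))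

lemma caseY [Fintype R] [DecidableEq R] (h7 : S_AB7) (h8 : S_AB8) {S : Set (R → ℝ)} {t : R → ℝ}
    {a0 : Fin 5} (hS : ∀ x ∈ S, -x ∈ S) (hc : Ctx2 S t f v κ a0) {A B A' B' : R → ℝ}
    (dA : A ∈ DSet S (κ a0) (1 / 2)) (dB : B ∈ DSet S (κ a0) (1 / 2))
    (dA' : A' ∈ DSet S (κ a0) (1 / 2)) (dB' : B' ∈ DSet S (κ a0) (1 / 2))
    (hs : A + B = A' + B') {T T' : Ty} (tA : TY f v κ A T) (tB : TY f v κ B T')
    (tA' : TY f v κ A' T) (tB' : TY f v κ B' T') (hne : T' ≠ ng T)
    (hl : LinearIndependent ℝ ![A - A', B' - A]) : False := by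
  have e : A - A' = B' - B := by
    have := congrArg (fun g => g - A' - B) hs
    have h1 : A + B - A' - B = A - A' := by abel
    have h2 : A' + B' - A' - B = B' - B := by abel
    exact h1.symm.trans (this.trans h2)
  have h0 : A - A' ≠ 0 := by
    have := hl.ne_zero 0
    simpa using this
  obtain ⟨s, hs1⟩ : ∃ s, (A - A') s ≠ 0 := by
    by_contra hcon
    push Not at hcon
    exact h0 (funext hcon)
  have hs2 : (B' - B) s ≠ 0 := e ▸ hs1
  have h3 := h8 R S t f v κ a0 hS hc A dA A' dA' B' dB' B dB _ _ _ _ _ _ tA tA' tB' tB s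
    (fun h => hs1 (by simp [h])) (fun h => hs2 (by simp [h]))
  rcases ty_of_ab8 h3.1 h3.2 with h4 | h4
  · subst h4
    refine h7 R S t f v κ a0 hc ![A, A', B', B] ?_ T'.1 (sg T'.2.1) (sg T'.2.2) ?_ ?_ ?_
    · intro j
      fin_cases j
      · exact dA
      · exact dA'
      · exact dB'
      · exact dB
    · intro j
      fin_cases j
      · exact tA
      · exact tA'
      · exact tB'
      · exact tB
    · exact e
    · exact hl
  · exact hne h4

lemma pairY [Fintype R] [DecidableEq R] (h7 : S_AB7) (h8 : S_AB8) {S : Set (R → ℝ)} {t : R → ℝ}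
    {a0 : Fin 5} (hS : ∀ x ∈ S, -x ∈ S) (hc : Ctx2 S t f v κ a0) {A B A' B' : R → ℝ}
    (dA : A ∈ DSet S (κ a0) (1 / 2)) (dB : B ∈ DSet S (κ a0) (1 / 2))
    (dA' : A' ∈ DSet S (κ a0) (1 / 2)) (dB' : B' ∈ DSet S (κ a0) (1 / 2))
    (hs : A + B = A' + B') {T T' U U' : Ty} (tA : TY f v κ A T) (tB : TY f v κ B T')
    (tA' : TY f v κ A' U) (tB' : TY f v κ B' U') (hne : T' ≠ ng T)
    (h : (U = T ∧ U' = T') ∨ (U = T' ∧ U' = T))
    (hl : LinearIndependent ℝ ![A - A', B' - A]) (hl' : LinearIndependent ℝ ![A - B', A' - A]) :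
    False := by
  rcases h with ⟨rfl, rfl⟩ | ⟨rfl, rfl⟩
  · exact caseY h7 h8 hS hc dA dB dA' dB' hs tA tB tA' tB' hne hl
  · exact caseY h7 h8 hS hc dA dB dB' dA' (by rw [hs]; abel) tA tB tB' tA' hne hl'

theorem main (hP : S_PT) (hC : S_CRD) (h7 : S_AB7) (h8 : S_AB8) : S_ABFIN := by
  intro R _ _ S t f v κ a0 hS hc hbad
  obtain ⟨x, y, z, w, dx, dy, dz, dw, dxyz, dxyw, hli⟩ := hbad
  have hT : ∀ z ∈ DSet S (κ a0) (1 / 2), ∃ T, TY f v κ z T := by
    intro z hz
    obtain ⟨a, σ, τ, h⟩ := hP R S t f v κ a0 hc z hz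
    exact TY_of h
  have hd := hc.c.det
  have hli' : ∀ α β γ δ : ℝ, α • x + β • y + γ • z + δ • w = 0 → α = 0 ∧ β = 0 ∧ γ = 0 ∧ δ = 0 := by
    intro α β γ δ h
    have h1 := Fintype.linearIndependent_iff.1 hli ![α, β, γ, δ] (by
      simp [Fin.sum_univ_four]
      exact h)
    exact ⟨h1 0, h1 1, h1 2, h1 3⟩
  have dz' := dneg hS dz
  have dw' := dneg hS dw
  obtain ⟨T0, t0⟩ := hT x dx
  obtain ⟨T0', t0'⟩ := hT y dy
  obtain ⟨T1, t1⟩ := hT _ dxyz
  obtain ⟨T1', t1'⟩ := hT _ dz'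
  obtain ⟨T2, t2⟩ := hT _ dxyw
  obtain ⟨T2', t2'⟩ := hT _ dw'
  have s1 : x + y = (x + y + z) + (-z) := by abel
  have s2 : x + y = (x + y + w) + (-w) := by abel
  have s12 : (x + y + z) + (-z) = (x + y + w) + (-w) := by abel
  have c1 := cs_eq hC hd t0 t0' t1 t1' s1
  have c2 := cs_eq hC hd t0 t0' t2 t2' s2
  by_cases hX : T0' = ng T0
  · -- the sum vanishes
    have hX1 := comb0 _ _ _ _ c1 hX
    have hc0 : x + y ≠ 0 := by
      intro h
      have := (hli' 1 1 0 0 (by simpa using h)).1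
      norm_num at this
    obtain ⟨s, hs1⟩ : ∃ s, (x + y) s ≠ 0 := by
      by_contra hcon
      push Not at hcon
      exact hc0 (funext hcon)
    have tn0 : TY f v κ (-y) T0 := by
      have := TY_neg t0'
      rw [hX] at this
      simpa [ng] using this
    have tn1 : TY f v κ z T1 := by
      have := TY_neg t1'
      rw [hX1] at this
      simpa [ng] using this
    have h3 := h8 R S t f v κ a0 hS hc x dx (-y) (dneg hS dy) (x + y + z) dxyz z dz
      _ _ _ _ _ _ t0 tn0 t1 tn1 s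
      (fun h => hs1 (by simp [h])) (fun h => hs1 (by
        have : x s + y s + z s = z s := h
        have h' : x s + y s = 0 := by linarith
        exact h'))
    rcases ty_of_ab8 h3.1 h3.2 with h4 | h4
    · subst h4
      refine h7 R S t f v κ a0 hc ![x, -y, x + y + z, z] ?_ T1.1 (sg T1.2.1) (sg T1.2.2) ?_ ?_ ?_
      · intro j
        fin_cases j
        · exact dx
        · exact dneg hS dy
        · exact dxyz
        · exact dz
      · intro j
        fin_cases j
        · exact t0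
        · exact tn0
        · exact t1
        · exact tn1
      · show x - (-y) = x + y + z - z
        abel
      · show LinearIndependent ℝ ![x - (-y), (x + y + z) - x]
        rw [LinearIndependent.pair_iff]
        intro p q h
        have h5 := hli' p (p + q) q 0 (by rw [← h]; module)
        exact ⟨h5.1, h5.2.2.1⟩
    · -- exchange
      have tm1 : TY f v κ (-(x + y + z)) T0 := by
        have := TY_neg t1
        rw [h4] at this
        simpa [ng] using this
      have tm1' : TY f v κ (-z) T0 := by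
        rw [hX1, h4] at t1'
        simpa [ng] using t1'
      refine h7 R S t f v κ a0 hc ![x, -y, -z, -(x + y + z)] ?_ T0.1 (sg T0.2.1) (sg T0.2.2) ?_ ?_ ?_
      · intro j
        fin_cases j
        · exact dx
        · exact dneg hS dy
        · exact dz'
        · exact dneg hS dxyz
      · intro j
        fin_cases j
        · exact t0
        · exact tn0
        · exact tm1'
        · exact tm1
      · show x - (-y) = -z - -(x + y + z)
        abel
      · show LinearIndependent ℝ ![x - (-y), -z - x]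
        rw [LinearIndependent.pair_iff]
        intro p q h
        have h5 := hli' (p - q) p (-q) 0 (by rw [← h]; module)
        exact ⟨h5.2.1, by linarith [h5.2.2.1]⟩
  · have hX1 : T1' ≠ ng T1 := fun h => hX (comb0 _ _ _ _ c1.symm h)
    have L01 : LinearIndependent ℝ ![x - (x + y + z), -z - x] := by
      rw [LinearIndependent.pair_iff]
      intro p q h
      have h5 := hli' (-q) (-p) (-p - q) 0 (by rw [← h]; module)
      exact ⟨by linarith [h5.2.1], by linarith [h5.1]⟩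
    have L01' : LinearIndependent ℝ ![x - -z, (x + y + z) - x] := by
      rw [LinearIndependent.pair_iff]
      intro p q h
      have h5 := hli' p q (p + q) 0 (by rw [← h]; module)
      exact ⟨h5.1, h5.2.1⟩
    have L02 : LinearIndependent ℝ ![x - (x + y + w), -w - x] := by
      rw [LinearIndependent.pair_iff]
      intro p q h
      have h5 := hli' (-q) (-p) 0 (-p - q) (by rw [← h]; module)
      exact ⟨by linarith [h5.2.1], by linarith [h5.1]⟩
    have L02' : LinearIndependent ℝ ![x - -w, (x + y + w) - x] := by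
      rw [LinearIndependent.pair_iff]
      intro p q h
      have h5 := hli' p q 0 (p + q) (by rw [← h]; module)
      exact ⟨h5.1, h5.2.1⟩
    have L12 : LinearIndependent ℝ ![(x + y + z) - (x + y + w), -w - (x + y + z)] := by
      rw [LinearIndependent.pair_iff]
      intro p q h
      have h5 := hli' (-q) (-q) (p - q) (-p - q) (by rw [← h]; module)
      exact ⟨by linarith [h5.1, h5.2.2.1], by linarith [h5.1]⟩
    have L12' : LinearIndependent ℝ ![(x + y + z) - -w, (x + y + w) - (x + y + z)] := by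
      rw [LinearIndependent.pair_iff]
      intro p q h
      have h5 := hli' p p (p - q) (p + q) (by rw [← h]; module)
      exact ⟨h5.1, by linarith [h5.1, h5.2.2.2]⟩
    rcases comb _ _ _ _ c1 hX with h | h
    · exact pairY h7 h8 hS hc dx dy dxyz dz' s1 t0 t0' t1 t1' hX h L01 L01'
    rcases comb _ _ _ _ c2 hX with h' | h'
    · exact pairY h7 h8 hS hc dx dy dxyw dw' s2 t0 t0' t2 t2' hX h' L02 L02'
    refine pairY h7 h8 hS hc dxyz dz' dxyw dw' s12 t1 t1' t2 t2' hX1 ?_ L12 L12'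
    rcases h with h | h <;> rcases h' with h' | h' <;> rw [← h] at h'
    · left; exact Prod.mk.inj h'
    · right; exact (Prod.mk.inj h').symm
    · right; exact Prod.mk.inj h'
    · left; exact (Prod.mk.inj h').symm

end Pool.Agent.W959.SH
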